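import Pool.Agent.W_7d29a1_X53.ForestInt

/-!
MP_7d29a1_pr, STORM X, (ES), pure part: the forest of the complete `T`-adic windows of `[0, N]` over the slabs of duration
`m`, summed over the levels with `E_n ^ 2 / n ≤ A E_m ^ 2 / m`.
-/

namespace Pool.Agent.W_7d29a1_X53

open Finset MeasureTheory

theorem geom_le {lam : ℝ} (h0 : 0 < lam) (h1 : lam < 1) (L : ℕ) : ∑ i ∈ range L, lam ^ i ≤ 1 / (1 - lam) := by
  have h2 : 0 < 1 - lam := by linarith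
  rw [geom_sum_eq h1.ne, le_div_iff₀ h2]
  have h3 : (lam ^ L - 1) / (lam - 1) * (1 - lam) = 1 - lam ^ L := by
    have h4 : lam - 1 ≠ 0 := by linarith
    field_simp
    ring
  rw [h3]
  have := pow_pos h0 L
  linarith

theorem windows_zero {T : ℕ} (hT : 2 ≤ T) (N m : ℕ) : N / m / T ^ (N + 1) = 0 := by
  apply Nat.div_eq_of_lt
  calc N / m ≤ N := Nat.div_le_self _ _
    _ < 2 ^ N := Nat.lt_two_pow_self
    _ ≤ 2 ^ (N + 1) := Nat.pow_le_pow_right (by norm_num) (by omega)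
    _ ≤ T ^ (N + 1) := Nat.pow_le_pow_left hT _

theorem windows_succ (T N m i : ℕ) : N / m / T ^ (i + 1) = N / m / T ^ i / T := by
  rw [pow_succ, Nat.div_div_eq_div_mul (N / m)]

theorem windows_le (T N m i : ℕ) : T * (N / m / T ^ (i + 1)) ≤ N / m / T ^ i := by
  rw [windows_succ]
  exact Nat.mul_div_le _ _

theorem windows_card {T : ℕ} (hT : 2 ≤ T) (N m i : ℕ) : N / m / T ^ i - T * (N / m / T ^ (i + 1)) ≤ T := by
  rw [windows_succ]
  have h1 := Nat.div_add_mod (N / m / T ^ i) T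
  have h2 := Nat.mod_lt (N / m / T ^ i) (show 0 < T by omega)
  omega

/-- A window of the level `i` exists only if `T ^ i m ≤ N`. -/
theorem window_fits {T N m i k : ℕ} (hk : k < N / m / T ^ i) : (k + 1) * (T ^ i * m) ≤ N := by
  have h1 : (k + 1) * T ^ i ≤ N / m := by
    have := Nat.div_mul_le_self (N / m) (T ^ i)
    have h2 : (k + 1) * T ^ i ≤ N / m / T ^ i * T ^ i := Nat.mul_le_mul_right _ hk
    omega
  calc (k + 1) * (T ^ i * m) = (k + 1) * T ^ i * m := by ring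
    _ ≤ N / m * m := Nat.mul_le_mul_right _ h1
    _ ≤ N := Nat.div_mul_le_self _ _

/-- Summation over the levels. -/
theorem levels_sum {T : ℕ} (hT : 2 ≤ T) {lam A Cr Cl K : ℝ} (hlam0 : 0 < lam) (hlam1 : lam < 1) (hA : 0 ≤ A)
    (hCr : 0 ≤ Cr) (hCl : 0 ≤ Cl) (E : ℕ → ℝ) {m N L : ℕ} (hm : 1 ≤ m) (hmN : m ≤ N)
    (hSub : ∀ n, m ≤ n → E n ^ 2 ≤ A * (n / m) * E m ^ 2) (Xs Ls : ℕ → ℕ → ℝ)
    (hroot : ∀ i, ∀ k < N / m / T ^ i, Xs i k ≤ Cr * E N ^ 2)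
    (hlev : ∀ i, T ^ i * m ≤ N →
      ∑ k ∈ range (N / m / T ^ i), Ls i k ≤ Cl * (N / ((T ^ i * m : ℕ) : ℝ)) * E (T ^ i * m) ^ 2)
    (hforest : ∑ k ∈ range (N / m / T ^ 0), Xs 0 k ≤
      ∑ i ∈ range L, lam ^ i * ∑ k ∈ Ico (T * (N / m / T ^ (i + 1))) (N / m / T ^ i), Xs i k +
      T * (T + 1) * K ^ 2 * ∑ i ∈ range L, lam ^ i *
        (∑ k ∈ range (N / m / T ^ (i + 1)), Ls (i + 1) k + ∑ k ∈ range (N / m / T ^ i), Ls i k)) :
    ∑ k ∈ range (N / m), Xs 0 k ≤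
      A / (1 - lam) * (T * Cr + 2 * (T * (T + 1) * K ^ 2) * Cl) * (N * (E m ^ 2 / m)) := by
  have hmR : (0 : ℝ) < m := by exact_mod_cast hm
  have hNR : (0 : ℝ) < N := by exact_mod_cast (lt_of_lt_of_le hm hmN)
  have hTR : (0 : ℝ) < T := by exact_mod_cast (by omega : 0 < T)
  obtain ⟨B, hB⟩ : ∃ B : ℝ, B = A * (N * (E m ^ 2 / m)) := ⟨_, rfl⟩
  have hB0 : 0 ≤ B := by rw [hB]; positivity
  have hEN : E N ^ 2 ≤ B := by
    refine (hSub N hmN).trans (le_of_eq ?_)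
    rw [hB]
    ring
  have r1 : ∀ i, ∑ k ∈ Ico (T * (N / m / T ^ (i + 1))) (N / m / T ^ i), Xs i k ≤ T * Cr * B := by
    intro i
    have h1 : ∑ k ∈ Ico (T * (N / m / T ^ (i + 1))) (N / m / T ^ i), Xs i k ≤
        ∑ k ∈ Ico (T * (N / m / T ^ (i + 1))) (N / m / T ^ i), Cr * B := by
      refine sum_le_sum fun k hk => ?_
      refine (hroot i k (mem_Ico.1 hk).2).trans (mul_le_mul_of_nonneg_left hEN hCr)
    refine h1.trans ?_
    rw [sum_const, Nat.card_Ico, nsmul_eq_mul, mul_assoc]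
    refine mul_le_mul_of_nonneg_right ?_ (by positivity)
    exact_mod_cast windows_card hT N m i
  have r2 : ∀ i, ∑ k ∈ range (N / m / T ^ i), Ls i k ≤ Cl * B := by
    intro i
    by_cases hi : T ^ i * m ≤ N
    · refine (hlev i hi).trans ?_
      have hTi : 1 ≤ T ^ i := Nat.one_le_pow _ _ (by omega)
      have hmn : m ≤ T ^ i * m := by
        calc m = 1 * m := by ring
          _ ≤ T ^ i * m := Nat.mul_le_mul_right _ hTi
      have hn : (0 : ℝ) < ((T ^ i * m : ℕ) : ℝ) := by exact_mod_cast (lt_of_lt_of_le hm hmn)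
      have h2 := hSub (T ^ i * m) hmn
      have h3 : N / ((T ^ i * m : ℕ) : ℝ) * E (T ^ i * m) ^ 2 ≤ B := by
        calc N / ((T ^ i * m : ℕ) : ℝ) * E (T ^ i * m) ^ 2
            ≤ N / ((T ^ i * m : ℕ) : ℝ) * (A * (((T ^ i * m : ℕ) : ℝ) / m) * E m ^ 2) :=
              mul_le_mul_of_nonneg_left h2 (by positivity)
          _ = B := by
              rw [hB]
              field_simp
      calc Cl * (N / ((T ^ i * m : ℕ) : ℝ)) * E (T ^ i * m) ^ 2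
          = Cl * (N / ((T ^ i * m : ℕ) : ℝ) * E (T ^ i * m) ^ 2) := by ring
        _ ≤ Cl * B := mul_le_mul_of_nonneg_left h3 hCl
    · have h4 : N / m / T ^ i = 0 := by
        by_contra hne
        have := window_fits (Nat.pos_of_ne_zero hne)
        simp only [zero_add, one_mul] at this
        exact hi this
      rw [h4, range_zero, sum_empty]
      positivity
  have hT0 : 0 ≤ T * (T + 1) * K ^ 2 := by positivity
  have hsum := geom_le hlam0 hlam1 L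
  have t1 : ∑ i ∈ range L, lam ^ i * ∑ k ∈ Ico (T * (N / m / T ^ (i + 1))) (N / m / T ^ i), Xs i k ≤
      1 / (1 - lam) * (T * Cr * B) := by
    refine (sum_le_sum fun i _ => mul_le_mul_of_nonneg_left (r1 i) (pow_pos hlam0 i).le).trans ?_
    rw [← sum_mul]
    exact mul_le_mul_of_nonneg_right hsum (by positivity)
  have t2 : ∑ i ∈ range L, lam ^ i *
        (∑ k ∈ range (N / m / T ^ (i + 1)), Ls (i + 1) k + ∑ k ∈ range (N / m / T ^ i), Ls i k) ≤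
      1 / (1 - lam) * (2 * Cl * B) := by
    refine (sum_le_sum fun i _ => mul_le_mul_of_nonneg_left
      (show _ ≤ 2 * Cl * B by linarith [r2 (i + 1), r2 i]) (pow_pos hlam0 i).le).trans ?_
    rw [← sum_mul]
    exact mul_le_mul_of_nonneg_right hsum (by positivity)
  rw [pow_zero, Nat.div_one] at hforest
  refine hforest.trans ?_
  calc _ ≤ 1 / (1 - lam) * (T * Cr * B) + T * (T + 1) * K ^ 2 * (1 / (1 - lam) * (2 * Cl * B)) :=
        add_le_add t1 (mul_le_mul_of_nonneg_left t2 hT0)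
    _ = _ := by
        rw [hB]
        ring

/-- **(ES), pure form.** The costs of the slabs at the place of the polymer, all levels summed. -/
theorem es_core {c C C3 : ℝ} (hc : 0 < c) (hC : 0 < C) (hC3 : 0 < C3) :
    ∃ ep : ℝ, 0 < ep ∧ ∀ (T : ℕ) (A Cr Cl : ℝ), 2 ≤ T → 0 ≤ A → 0 ≤ Cr → 0 ≤ Cl → ∃ B : ℝ, 0 ≤ B ∧
      ∀ {Ω ι : Type} [MeasurableSpace Ω] (P : Measure Ω) (S : Finset ι) (G : Ω → ι → ℝ) (E : ℕ → ℝ) (m N : ℕ)
        (X Ph La : ℕ → ℕ → Ω → ι → ℝ), 1 ≤ m → m ≤ N →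
        (∀ n, m ≤ n → E n ^ 2 ≤ A * (n / m) * E m ^ 2) →
        (∀ ω, ∀ x ∈ S, 0 ≤ G ω x) →
        (∀ ω, ∀ x ∈ S, ∀ i, ∀ k < N / m / T ^ i, 0 ≤ La i k ω x ∧ 0 ≤ Ph i k ω x ∧
          c * Ph i k ω x - La i k ω x ≤ X i k ω x ∧ X i k ω x ≤ C * Ph i k ω x + La i k ω x) →
        (∀ ω, ∀ x ∈ S, ∀ i, ∀ k < N / m / T ^ (i + 1),
          ∑ r ∈ range T, X i (T * k + r) ω x ≤ X (i + 1) k ω x + La (i + 1) k ω x) →
        (∀ ω, ∀ x ∈ S, ∀ i, ∀ k < N / m / T ^ (i + 1), ∀ r < T,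
          Ph (i + 1) k ω x ≤ ep * Ph i (T * k + r) ω x + C3 * ∑ s ∈ (range T).erase r, Ph i (T * k + s) ω x) →
        (∀ i, ∀ k < N / m / T ^ i, Integrable (fun ω => ∑ x ∈ S, G ω x * (max (X i k ω x) 0) ^ 2) P) →
        (∀ i, ∀ k < N / m / T ^ i, Integrable (fun ω => ∑ x ∈ S, G ω x * La i k ω x ^ 2) P) →
        (∀ i, ∀ k < N / m / T ^ i, ∫ ω, ∑ x ∈ S, G ω x * (max (X i k ω x) 0) ^ 2 ∂P ≤ Cr * E N ^ 2) →
        (∀ i, T ^ i * m ≤ N → ∑ k ∈ range (N / m / T ^ i), ∫ ω, ∑ x ∈ S, G ω x * La i k ω x ^ 2 ∂P ≤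
          Cl * (N / ((T ^ i * m : ℕ) : ℝ)) * E (T ^ i * m) ^ 2) →
        ∑ k ∈ range (N / m), ∫ ω, ∑ x ∈ S, G ω x * (max (X 0 k ω x) 0) ^ 2 ∂P ≤ B * (N * (E m ^ 2 / m)) := by
  obtain ⟨ep, K, lam, hep, hK, hlam0, hlam1, h⟩ := forest_int hc hC hC3
  have h1l : 0 < 1 - lam := by linarith
  refine ⟨ep, hep, fun T A Cr Cl hT hA hCr hCl =>
    ⟨A / (1 - lam) * (T * Cr + 2 * (T * (T + 1) * K ^ 2) * Cl), by positivity, ?_⟩⟩
  intro Ω ι _ P S G E m N X Ph La hm hmN hSub hG h2 h1 h3 iX iL hroot hlev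
  refine levels_sum (L := N + 1) hT hlam0 hlam1 hA hCr hCl E hm hmN hSub
    (fun i k => ∫ ω, ∑ x ∈ S, G ω x * (max (X i k ω x) 0) ^ 2 ∂P)
    (fun i k => ∫ ω, ∑ x ∈ S, G ω x * La i k ω x ^ 2 ∂P) hroot hlev ?_
  exact h P S G T (N + 1) (fun i => N / m / T ^ i) X Ph La hG (fun i _ => windows_le T N m i)
    (windows_zero hT N m) (fun ω x hx i _ => h2 ω x hx i) (fun ω x hx i _ => h1 ω x hx i)
    (fun ω x hx i _ => h3 ω x hx i) (fun i _ => iX i) (fun i _ => iL i)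

/-- The two parts of (5.0) from the costs and the lucks of the slabs. -/
theorem es_split {n N : ℕ} {c K0 B Cl E a : ℝ} (St Lk Xs Ls : ℕ → ℝ) (hK0 : 0 ≤ K0)
    (hSt : ∀ k < n, St k ≤ K0 * (E ^ 2 + Xs k + Ls k)) (hLk : ∀ k < n, Lk k ≤ c * Ls k) (hc : 0 ≤ c)
    (hX : ∑ k ∈ range n, Xs k ≤ B * (N * a)) (hL : ∑ k ∈ range n, Ls k ≤ Cl * (N * a))
    (hE : (n : ℝ) * E ^ 2 ≤ N * a) :
    ∑ k ∈ range n, (St k + Lk k) ≤ (K0 * (1 + B + Cl) + c * Cl) * (N * a) := by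
  have h1 : ∑ k ∈ range n, (St k + Lk k) ≤ ∑ k ∈ range n, (K0 * (E ^ 2 + Xs k + Ls k) + c * Ls k) :=
    sum_le_sum fun k hk => add_le_add (hSt k (mem_range.1 hk)) (hLk k (mem_range.1 hk))
  refine h1.trans ?_
  rw [sum_add_distrib, ← mul_sum, ← mul_sum, sum_add_distrib, sum_add_distrib, sum_const, card_range, nsmul_eq_mul]
  have h2 : K0 * ((n : ℝ) * E ^ 2 + ∑ k ∈ range n, Xs k + ∑ k ∈ range n, Ls k) ≤
      K0 * (N * a + B * (N * a) + Cl * (N * a)) := mul_le_mul_of_nonneg_left (by linarith) hK0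
  have h3 := mul_le_mul_of_nonneg_left hL hc
  linarith

end Pool.Agent.W_7d29a1_X53
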