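import Pool.Agent.W_7d29a1_XT.Forest

/-!
MP_7d29a1_pr, STORM X, (ES). The forest lemma, integrated over the environment and a finite family of paths.
-/

namespace Pool.Agent.W_7d29a1_X53

open Finset MeasureTheory Pool.Agent.W_7d29a1_XT

/-- The square of a sum over a window and its children. -/
theorem sq_window (T : ℕ) (a : ℝ) (f : ℕ → ℝ) :
    (a + ∑ s ∈ range T, f s) ^ 2 ≤ (T + 1) * (a ^ 2 + ∑ s ∈ range T, f s ^ 2) := by
  have h := sq_sum_le_card_mul_sum_sq (s := range (T + 1)) (f := fun j => if j = T then a else f j)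
  rw [card_range, sum_range_succ, sum_range_succ] at h
  have e1 : ∑ x ∈ range T, (if x = T then a else f x) = ∑ x ∈ range T, f x := by
    refine sum_congr rfl fun x hx => ?_
    rw [if_neg (mem_range.1 hx).ne]
  have e2 : ∑ x ∈ range T, (if x = T then a else f x) ^ 2 = ∑ x ∈ range T, f x ^ 2 := by
    refine sum_congr rfl fun x hx => ?_
    rw [if_neg (mem_range.1 hx).ne]
  rw [e1, e2, if_pos rfl] at h
  push_cast at h
  linarith

/-- One weight, one environment: `forest` with the squares split. -/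
theorem forest_sq {c C C3 : ℝ} (hc : 0 < c) (hC : 0 < C) (hC3 : 0 < C3) :
    ∃ ep K lam : ℝ, 0 < ep ∧ 1 ≤ K ∧ 0 < lam ∧ lam < 1 ∧
      ∀ (T L : ℕ) (Nn : ℕ → ℕ) (X Ph La : ℕ → ℕ → ℝ), (∀ i < L, T * Nn (i + 1) ≤ Nn i) → Nn L = 0 →
        (∀ i < L, ∀ k < Nn i, 0 ≤ La i k ∧ 0 ≤ Ph i k ∧ c * Ph i k - La i k ≤ X i k ∧
          X i k ≤ C * Ph i k + La i k) →
        (∀ i < L, ∀ k < Nn (i + 1), ∑ r ∈ range T, X i (T * k + r) ≤ X (i + 1) k + La (i + 1) k) →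
        (∀ i < L, ∀ k < Nn (i + 1), ∀ r < T,
          Ph (i + 1) k ≤ ep * Ph i (T * k + r) + C3 * ∑ s ∈ (range T).erase r, Ph i (T * k + s)) →
        ∑ k ∈ range (Nn 0), (max (X 0 k) 0) ^ 2 ≤
          ∑ i ∈ range L, lam ^ i * ∑ k ∈ Ico (T * Nn (i + 1)) (Nn i), (max (X i k) 0) ^ 2 +
          T * (T + 1) * K ^ 2 * ∑ i ∈ range L, lam ^ i *
            (∑ k ∈ range (Nn (i + 1)), La (i + 1) k ^ 2 + ∑ k ∈ range (Nn i), La i k ^ 2) := by
  obtain ⟨ep, K, lam, hep, hK, hlam0, hlam1, h⟩ := forest hc hC hC3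
  refine ⟨ep, K, lam, hep, hK, hlam0, hlam1, fun T L Nn X Ph La h1 h2 h3 h4 h5 => ?_⟩
  refine (h T L Nn X Ph La h1 h2 h3 h4 h5).trans (add_le_add le_rfl ?_)
  have hT : (0 : ℝ) ≤ T := Nat.cast_nonneg T
  have hterm : ∀ i ∈ range L, lam ^ i * ∑ k ∈ range (Nn (i + 1)), (La (i + 1) k + ∑ s ∈ range T, La i (T * k + s)) ^ 2 ≤
      (T + 1) * (lam ^ i *
        (∑ k ∈ range (Nn (i + 1)), La (i + 1) k ^ 2 + ∑ k ∈ range (Nn i), La i k ^ 2)) := by
    intro i hi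
    have hi' := mem_range.1 hi
    have e1 : ∑ k ∈ range (Nn (i + 1)), (La (i + 1) k + ∑ s ∈ range T, La i (T * k + s)) ^ 2 ≤
        (T + 1) * (∑ k ∈ range (Nn (i + 1)), La (i + 1) k ^ 2 + ∑ k ∈ range (Nn i), La i k ^ 2) := by
      have e2 : ∑ k ∈ range (Nn (i + 1)), (La (i + 1) k + ∑ s ∈ range T, La i (T * k + s)) ^ 2 ≤
          ∑ k ∈ range (Nn (i + 1)), (T + 1) * (La (i + 1) k ^ 2 + ∑ s ∈ range T, La i (T * k + s) ^ 2) :=
        sum_le_sum fun k _ => sq_window T _ _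
      refine e2.trans ?_
      rw [← mul_sum, sum_add_distrib]
      refine mul_le_mul_of_nonneg_left (add_le_add le_rfl ?_) (by positivity)
      rw [← sum_children T (fun k => La i k ^ 2) (Nn (i + 1))]
      refine sum_le_sum_of_subset_of_nonneg ?_ fun k _ _ => sq_nonneg _
      rw [range_subset_range, mul_comm]
      exact h1 i hi'
    calc lam ^ i * ∑ k ∈ range (Nn (i + 1)), (La (i + 1) k + ∑ s ∈ range T, La i (T * k + s)) ^ 2
        ≤ lam ^ i * ((T + 1) * (∑ k ∈ range (Nn (i + 1)), La (i + 1) k ^ 2 + ∑ k ∈ range (Nn i), La i k ^ 2)) :=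
          mul_le_mul_of_nonneg_left e1 (by positivity)
      _ = _ := by ring
  have h6 := sum_le_sum hterm
  rw [← mul_sum] at h6
  calc T * K ^ 2 * ∑ i ∈ range L, lam ^ i * ∑ k ∈ range (Nn (i + 1)), (La (i + 1) k + ∑ s ∈ range T, La i (T * k + s)) ^ 2
      ≤ T * K ^ 2 * ((T + 1) * ∑ i ∈ range L, (lam ^ i *
        (∑ k ∈ range (Nn (i + 1)), La (i + 1) k ^ 2 + ∑ k ∈ range (Nn i), La i k ^ 2))) :=
        mul_le_mul_of_nonneg_left h6 (by positivity)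
    _ = _ := by ring

/-- **The forest lemma, integrated** over an environment `ω` and over a finite family `S` of paths with weights `G`. -/
theorem forest_int {c C C3 : ℝ} (hc : 0 < c) (hC : 0 < C) (hC3 : 0 < C3) :
    ∃ ep K lam : ℝ, 0 < ep ∧ 1 ≤ K ∧ 0 < lam ∧ lam < 1 ∧
      ∀ {Ω ι : Type} [MeasurableSpace Ω] (P : Measure Ω) (S : Finset ι) (G : Ω → ι → ℝ)
        (T L : ℕ) (Nn : ℕ → ℕ) (X Ph La : ℕ → ℕ → Ω → ι → ℝ),
        (∀ ω, ∀ x ∈ S, 0 ≤ G ω x) → (∀ i < L, T * Nn (i + 1) ≤ Nn i) → Nn L = 0 →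
        (∀ ω, ∀ x ∈ S, ∀ i < L, ∀ k < Nn i, 0 ≤ La i k ω x ∧ 0 ≤ Ph i k ω x ∧
          c * Ph i k ω x - La i k ω x ≤ X i k ω x ∧ X i k ω x ≤ C * Ph i k ω x + La i k ω x) →
        (∀ ω, ∀ x ∈ S, ∀ i < L, ∀ k < Nn (i + 1),
          ∑ r ∈ range T, X i (T * k + r) ω x ≤ X (i + 1) k ω x + La (i + 1) k ω x) →
        (∀ ω, ∀ x ∈ S, ∀ i < L, ∀ k < Nn (i + 1), ∀ r < T,
          Ph (i + 1) k ω x ≤ ep * Ph i (T * k + r) ω x + C3 * ∑ s ∈ (range T).erase r, Ph i (T * k + s) ω x) →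
        (∀ i < L, ∀ k < Nn i, Integrable (fun ω => ∑ x ∈ S, G ω x * (max (X i k ω x) 0) ^ 2) P) →
        (∀ i < L, ∀ k < Nn i, Integrable (fun ω => ∑ x ∈ S, G ω x * La i k ω x ^ 2) P) →
        ∑ k ∈ range (Nn 0), ∫ ω, ∑ x ∈ S, G ω x * (max (X 0 k ω x) 0) ^ 2 ∂P ≤
          ∑ i ∈ range L, lam ^ i * ∑ k ∈ Ico (T * Nn (i + 1)) (Nn i),
            ∫ ω, ∑ x ∈ S, G ω x * (max (X i k ω x) 0) ^ 2 ∂P +
          T * (T + 1) * K ^ 2 * ∑ i ∈ range L, lam ^ i *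
            (∑ k ∈ range (Nn (i + 1)), ∫ ω, ∑ x ∈ S, G ω x * La (i + 1) k ω x ^ 2 ∂P +
              ∑ k ∈ range (Nn i), ∫ ω, ∑ x ∈ S, G ω x * La i k ω x ^ 2 ∂P) := by
  obtain ⟨ep, K, lam, hep, hK, hlam0, hlam1, h⟩ := forest_sq hc hC hC3
  refine ⟨ep, K, lam, hep, hK, hlam0, hlam1, ?_⟩
  intro Ω ι _ P S G T L Nn X Ph La hG hNn hNL h2 h1 h3 iX iL
  rcases Nat.eq_zero_or_pos L with hL0 | hLpos
  · subst hL0
    rw [hNL]
    simp
  have iL' : ∀ i ≤ L, ∀ k < Nn i, Integrable (fun ω => ∑ x ∈ S, G ω x * La i k ω x ^ 2) P := by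
    intro i hi k hk
    rcases Nat.lt_or_ge i L with h | h
    · exact iL i h k hk
    · have : i = L := le_antisymm hi h
      rw [this, hNL] at hk
      omega
  -- pointwise
  have hpt : ∀ ω, ∑ k ∈ range (Nn 0), ∑ x ∈ S, G ω x * (max (X 0 k ω x) 0) ^ 2 ≤
      ∑ i ∈ range L, lam ^ i * ∑ k ∈ Ico (T * Nn (i + 1)) (Nn i), ∑ x ∈ S, G ω x * (max (X i k ω x) 0) ^ 2 +
      T * (T + 1) * K ^ 2 * ∑ i ∈ range L, lam ^ i *
        (∑ k ∈ range (Nn (i + 1)), ∑ x ∈ S, G ω x * La (i + 1) k ω x ^ 2 +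
          ∑ k ∈ range (Nn i), ∑ x ∈ S, G ω x * La i k ω x ^ 2) := by
    intro ω
    have hx : ∀ x ∈ S, G ω x * ∑ k ∈ range (Nn 0), (max (X 0 k ω x) 0) ^ 2 ≤
        G ω x * (∑ i ∈ range L, lam ^ i * ∑ k ∈ Ico (T * Nn (i + 1)) (Nn i), (max (X i k ω x) 0) ^ 2 +
          T * (T + 1) * K ^ 2 * ∑ i ∈ range L, lam ^ i *
            (∑ k ∈ range (Nn (i + 1)), La (i + 1) k ω x ^ 2 + ∑ k ∈ range (Nn i), La i k ω x ^ 2)) := by
      intro x hx
      exact mul_le_mul_of_nonneg_left (h T L Nn (fun i k => X i k ω x) (fun i k => Ph i k ω x)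
        (fun i k => La i k ω x) hNn hNL (h2 ω x hx) (h1 ω x hx) (h3 ω x hx)) (hG ω x hx)
    have hs := sum_le_sum hx
    have e1 : ∑ x ∈ S, G ω x * ∑ k ∈ range (Nn 0), (max (X 0 k ω x) 0) ^ 2 =
        ∑ k ∈ range (Nn 0), ∑ x ∈ S, G ω x * (max (X 0 k ω x) 0) ^ 2 := by
      rw [sum_comm]
      exact sum_congr rfl fun x _ => mul_sum _ _ _
    have e2 : ∀ (I : ℕ → Finset ℕ) (f : ℕ → ℕ → ι → ℝ),
        ∑ x ∈ S, G ω x * ∑ i ∈ range L, lam ^ i * ∑ k ∈ I i, f i k x =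
        ∑ i ∈ range L, lam ^ i * ∑ k ∈ I i, ∑ x ∈ S, G ω x * f i k x := by
      intro I f
      calc ∑ x ∈ S, G ω x * ∑ i ∈ range L, lam ^ i * ∑ k ∈ I i, f i k x
          = ∑ x ∈ S, ∑ i ∈ range L, lam ^ i * ∑ k ∈ I i, G ω x * f i k x := by
            refine sum_congr rfl fun x _ => ?_
            rw [mul_sum]
            refine sum_congr rfl fun i _ => ?_
            rw [← mul_sum]
            ring
        _ = ∑ i ∈ range L, ∑ x ∈ S, lam ^ i * ∑ k ∈ I i, G ω x * f i k x := sum_comm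
        _ = _ := by
            refine sum_congr rfl fun i _ => ?_
            rw [← mul_sum, sum_comm]
    have e3 : ∑ x ∈ S, G ω x * (∑ i ∈ range L, lam ^ i * ∑ k ∈ Ico (T * Nn (i + 1)) (Nn i), (max (X i k ω x) 0) ^ 2 +
          T * (T + 1) * K ^ 2 * ∑ i ∈ range L, lam ^ i *
            (∑ k ∈ range (Nn (i + 1)), La (i + 1) k ω x ^ 2 + ∑ k ∈ range (Nn i), La i k ω x ^ 2)) =
        ∑ i ∈ range L, lam ^ i * ∑ k ∈ Ico (T * Nn (i + 1)) (Nn i), ∑ x ∈ S, G ω x * (max (X i k ω x) 0) ^ 2 +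
        T * (T + 1) * K ^ 2 * ∑ i ∈ range L, lam ^ i *
          (∑ k ∈ range (Nn (i + 1)), ∑ x ∈ S, G ω x * La (i + 1) k ω x ^ 2 +
            ∑ k ∈ range (Nn i), ∑ x ∈ S, G ω x * La i k ω x ^ 2) := by
      have f1 := e2 (fun i => Ico (T * Nn (i + 1)) (Nn i)) (fun i k x => (max (X i k ω x) 0) ^ 2)
      have f2 := e2 (fun i => range (Nn (i + 1))) (fun i k x => La (i + 1) k ω x ^ 2)
      have f3 := e2 (fun i => range (Nn i)) (fun i k x => La i k ω x ^ 2)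
      rw [← f1]
      have f4 : ∑ i ∈ range L, lam ^ i *
          (∑ k ∈ range (Nn (i + 1)), ∑ x ∈ S, G ω x * La (i + 1) k ω x ^ 2 +
            ∑ k ∈ range (Nn i), ∑ x ∈ S, G ω x * La i k ω x ^ 2) =
          ∑ x ∈ S, G ω x * ∑ i ∈ range L, lam ^ i * ∑ k ∈ range (Nn (i + 1)), La (i + 1) k ω x ^ 2 +
          ∑ x ∈ S, G ω x * ∑ i ∈ range L, lam ^ i * ∑ k ∈ range (Nn i), La i k ω x ^ 2 := by
        rw [f2, f3, ← sum_add_distrib]
        exact sum_congr rfl fun i _ => mul_add _ _ _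
      rw [f4, ← sum_add_distrib, mul_sum, ← sum_add_distrib]
      refine sum_congr rfl fun x _ => ?_
      have f5 : ∑ i ∈ range L, lam ^ i *
            (∑ k ∈ range (Nn (i + 1)), La (i + 1) k ω x ^ 2 + ∑ k ∈ range (Nn i), La i k ω x ^ 2) =
          ∑ i ∈ range L, lam ^ i * ∑ k ∈ range (Nn (i + 1)), La (i + 1) k ω x ^ 2 +
          ∑ i ∈ range L, lam ^ i * ∑ k ∈ range (Nn i), La i k ω x ^ 2 := by
        rw [← sum_add_distrib]
        exact sum_congr rfl fun i _ => mul_add _ _ _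
      rw [f5]
      ring
    rw [← e1, ← e3]
    exact hs
  -- integrate
  have jX : ∀ i < L, ∀ k ∈ Ico (T * Nn (i + 1)) (Nn i),
      Integrable (fun ω => ∑ x ∈ S, G ω x * (max (X i k ω x) 0) ^ 2) P :=
    fun i hi k hk => iX i hi k (mem_Ico.1 hk).2
  have jL1 : ∀ i < L, ∀ k ∈ range (Nn (i + 1)), Integrable (fun ω => ∑ x ∈ S, G ω x * La (i + 1) k ω x ^ 2) P :=
    fun i hi k hk => iL' (i + 1) hi k (mem_range.1 hk)
  have jL0 : ∀ i < L, ∀ k ∈ range (Nn i), Integrable (fun ω => ∑ x ∈ S, G ω x * La i k ω x ^ 2) P :=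
    fun i hi k hk => iL i hi k (mem_range.1 hk)
  have k0 : ∀ k ∈ range (Nn 0), Integrable (fun ω => ∑ x ∈ S, G ω x * (max (X 0 k ω x) 0) ^ 2) P :=
    fun k hk => iX 0 hLpos k (mem_range.1 hk)
  have k1 : ∀ i ∈ range L, Integrable (fun ω => lam ^ i * ∑ k ∈ Ico (T * Nn (i + 1)) (Nn i),
      ∑ x ∈ S, G ω x * (max (X i k ω x) 0) ^ 2) P :=
    fun i hi => (integrable_finsetSum _ (jX i (mem_range.1 hi))).const_mul _
  have k2 : ∀ i ∈ range L, Integrable (fun ω => lam ^ i *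
      (∑ k ∈ range (Nn (i + 1)), ∑ x ∈ S, G ω x * La (i + 1) k ω x ^ 2 +
        ∑ k ∈ range (Nn i), ∑ x ∈ S, G ω x * La i k ω x ^ 2)) P :=
    fun i hi => ((integrable_finsetSum _ (jL1 i (mem_range.1 hi))).add
      (integrable_finsetSum _ (jL0 i (mem_range.1 hi)))).const_mul _
  have hint := integral_mono (μ := P) (integrable_finsetSum _ k0)
    ((integrable_finsetSum _ k1).add ((integrable_finsetSum _ k2).const_mul (T * (T + 1) * K ^ 2))) hpt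
  rw [integral_finsetSum _ k0] at hint
  refine hint.trans (le_of_eq ?_)
  simp only [Pi.add_apply]
  rw [integral_add (integrable_finsetSum _ k1) ((integrable_finsetSum _ k2).const_mul _),
    integral_finsetSum _ k1, integral_const_mul, integral_finsetSum _ k2]
  congr 1
  · refine sum_congr rfl fun i hi => ?_
    rw [integral_const_mul, integral_finsetSum _ (jX i (mem_range.1 hi))]
  · congr 1
    refine sum_congr rfl fun i hi => ?_
    rw [integral_const_mul, integral_add (integrable_finsetSum _ (jL1 i (mem_range.1 hi)))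
      (integrable_finsetSum _ (jL0 i (mem_range.1 hi))), integral_finsetSum _ (jL1 i (mem_range.1 hi)),
      integral_finsetSum _ (jL0 i (mem_range.1 hi))]

end Pool.Agent.W_7d29a1_X53
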